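import Mathlib

namespace H11.HUD

def IsDom {V : Type} (H : SimpleGraph V) (D : Finset V) : Prop :=
  ∀ v, v ∉ D → ∃ u ∈ D, H.Adj v u

/-- a dominating set of minimum size. -/
def IsGammaSet {V : Type} (H : SimpleGraph V) (D : Finset V) : Prop :=
  IsDom H D ∧ ∀ D', IsDom H D' → D.card ≤ D'.card

def HypoUD {V : Type} (G : SimpleGraph V) : Prop :=
  (∃ D₁ D₂, D₁ ≠ D₂ ∧ IsGammaSet G D₁ ∧ IsGammaSet G D₂) ∧
    ∀ v, ∃! D, IsGammaSet (G.induce {w | w ≠ v}) D

def IsCutVertex {V : Type} (G : SimpleGraph V) (v : V) : Prop :=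
  Nat.card G.ConnectedComponent < Nat.card (G.induce {w | w ≠ v}).ConnectedComponent

def nb : Fin 19 → ℕ := ![141589, 398, 591, 30, 697, 880, 356, 402, 483, 564, 203776, 302081, 15360,
  356353, 450560, 182272, 205824, 246785, 288768]

def G : SimpleGraph (Fin 19) where
  Adj a b := a ≠ b ∧ (nb a).testBit b = true
  symm := ⟨by decide +kernel⟩
  loopless := ⟨fun a h => h.1 rfl⟩

instance : DecidableRel G.Adj := fun a b => by unfold G; infer_instance

def Dl : Fin 19 → List (Fin 19) := ![[1, 5, 10, 14], [4, 6, 10, 14], [4, 8, 10, 14], [8, 9, 10, 14],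
  [2, 8, 10, 14], [2, 7, 10, 14], [1, 4, 10, 14], [2, 5, 10, 14], [2, 4, 10, 14], [3, 8, 10, 14],
  [1, 5, 13, 15], [1, 5, 13, 17], [1, 5, 17, 18], [1, 5, 11, 17], [1, 5, 11, 16], [1, 5, 10, 13],
  [1, 5, 11, 14], [1, 5, 11, 13], [1, 5, 12, 17]]

def fN (a : ℕ) : ℕ := [141589, 398, 591, 30, 697, 880, 356, 402, 483, 564, 203776, 302081, 15360,
  356353, 450560, 182272, 205824, 246785, 288768].getD a 0

def DN (v : ℕ) : List ℕ := [[1, 5, 10, 14], [4, 6, 10, 14], [4, 8, 10, 14], [8, 9, 10, 14],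
  [2, 8, 10, 14], [2, 7, 10, 14], [1, 4, 10, 14], [2, 5, 10, 14], [2, 4, 10, 14], [3, 8, 10, 14],
  [1, 5, 13, 15], [1, 5, 13, 17], [1, 5, 17, 18], [1, 5, 11, 17], [1, 5, 11, 16], [1, 5, 10, 13],
  [1, 5, 11, 14], [1, 5, 11, 13], [1, 5, 12, 17]].getD v []

def R19 : List ℕ := [0, 1, 2, 3, 4, 5, 6, 7, 8, 9, 10, 11, 12, 13, 14, 15, 16, 17, 18]

def inner (m : ℕ) (l : List ℕ) : Bool :=
  R19.all fun v => !(Nat.beq (Nat.lor m (Nat.pow 2 v)) 524287) || l == DN v

def chkb (a : ℕ) : Bool :=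
  R19.all fun b => Nat.blt b a || R19.all fun c => Nat.blt c b || R19.all fun d => Nat.blt d c ||
    inner (Nat.lor (Nat.lor (Nat.lor (fN a) (fN b)) (fN c)) (fN d)) [a, b, c, d]

theorem chkb_true : R19.all chkb = true := by decide +kernel

theorem chk : ∀ a b : Fin 19, a ≤ b → ∀ c, b ≤ c → ∀ d, c ≤ d → ∀ v : Fin 19,
    (∀ w : Fin 19, w = v ∨ (nb a ||| nb b ||| nb c ||| nb d).testBit w = true) →
    [a, b, c, d] = Dl v := by
  intro a b hab c hbc d hcd v h
  have m : ∀ a : Fin 19, a.val ∈ R19 ∧ fN a = nb a ∧ nb a < 2 ^ 19 ∧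
    DN a = (Dl a).map Fin.val := by decide +kernel
  have := chkb_true
  simp only [chkb, inner, List.all_eq_true, Bool.or_eq_true, Nat.blt_eq, Bool.not_eq_true',
    beq_iff_eq] at this
  have := ((((this a (m a).1 b (m b).1).resolve_left (not_lt.2 hab) c (m c).1).resolve_left
    (not_lt.2 hbc) d (m d).1).resolve_left (not_lt.2 hcd) v (m v).1).resolve_left (by
      rw [(m a).2.1, (m b).2.1, (m c).2.1, (m d).2.1, Bool.not_eq_false, Nat.beq_eq]
      show (nb a ||| nb b ||| nb c ||| nb d) ||| 2 ^ v.val = 2 ^ 19 - 1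
      have hlt : (nb a ||| nb b ||| nb c ||| nb d) ||| 2 ^ v.val < 2 ^ 19 :=
        Nat.or_lt_two_pow (Nat.or_lt_two_pow (Nat.or_lt_two_pow (Nat.or_lt_two_pow (m a).2.2.1
          (m b).2.2.1) (m c).2.2.1) (m d).2.2.1) (Nat.pow_lt_pow_right (by norm_num) v.2)
      refine Nat.eq_of_testBit_eq fun i => ?_
      rw [Nat.testBit_two_pow_sub_one]
      by_cases hi : i < 19
      · rw [Nat.testBit_or, Nat.testBit_two_pow]
        rcases h ⟨i, hi⟩ with h | h
        · simp [← h, hi]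
        · simp only at h
          simp [h, hi]
      · rw [Nat.testBit_lt_two_pow (hlt.trans_le (Nat.pow_le_pow_right (by norm_num) (by omega)))]
        simp [hi])
  rw [(m v).2.2.2] at this
  exact List.map_injective_iff.2 Fin.val_injective this

theorem self : ∀ a : Fin 19, (nb a).testBit a = true := by decide +kernel

theorem key (v : Fin 19) (D : Finset (Fin 19)) (hc : D.card ≤ 4)
    (h : ∀ w, w ≠ v → w ∉ D → ∃ u ∈ D, G.Adj w u) : D = (Dl v).toFinset := by
  have h' : ∀ w, w = v ∨ ∃ u ∈ D.sort (· ≤ ·), (nb u).testBit w = true := fun w => by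
    by_cases e : w = v
    · exact Or.inl e
    by_cases e2 : w ∈ D
    · exact Or.inr ⟨w, by simpa using e2, self w⟩
    obtain ⟨u, hu, ha⟩ := h w e e2
    exact Or.inr ⟨u, by simpa using hu, ha.symm.2⟩
  have hs := D.pairwise_sort (· ≤ ·)
  have hl : (D.sort (· ≤ ·)).length ≤ 4 := by simpa using hc
  rw [← D.sort_toFinset (· ≤ ·)]
  generalize D.sort (· ≤ ·) = l at h' hs hl
  match l, h', hs, hl with
  | [], h', _, _ =>
    have h0 := h' 0; have h1 := h' 1
    simp at h0 h1; exact absurd (h0.trans h1.symm) (by decide)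
  | [a], h', _, _ =>
    rw [← chk a a le_rfl a le_rfl a le_rfl v fun w => by simpa using h' w]; simp
  | [a, b], h', hs, _ =>
    simp at hs
    rw [← chk a a le_rfl a le_rfl b hs v fun w => by simpa using h' w]; simp
  | [a, b, c], h', hs, _ =>
    simp at hs
    rw [← chk a a le_rfl b hs.1.1 c hs.2 v fun w => by simpa [or_assoc] using h' w]; simp
  | [a, b, c, d], h', hs, _ =>
    simp at hs
    rw [← chk a b hs.1.1 c hs.2.1.1 d hs.2.2 v fun w => by simpa [or_assoc] using h' w]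
  | _ :: _ :: _ :: _ :: _ :: _, _, _, hl => simp at hl; omega

theorem five (D : Finset (Fin 19)) (h : IsDom G D) : 5 ≤ D.card := by
  by_contra hc
  have h0 := key 0 D (by omega) fun w _ => h w
  have h1 := key 1 D (by omega) fun w _ => h w
  exact absurd (h0.symm.trans h1) (by decide)

theorem facts : ∀ v, v ∉ Dl v ∧ (Dl v).toFinset.card = 4 ∧
    ∀ w, w ≠ v → w ∉ Dl v → ∃ u ∈ Dl v, G.Adj w u := by decide +kernel

theorem key' (v : Fin 19) (D : Finset {w | w ≠ v}) (hc : D.card ≤ 4)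
    (h : IsDom (G.induce {w | w ≠ v}) D) :
    D.map (Function.Embedding.subtype _) = (Dl v).toFinset := by
  refine key v _ (by simpa using hc) fun w hw hD => ?_
  obtain ⟨u, hu, ha⟩ := h ⟨w, hw⟩ fun e => hD (Finset.mem_map.2 ⟨_, e, rfl⟩)
  exact ⟨u, Finset.mem_map.2 ⟨_, hu, rfl⟩, ha⟩

theorem hypo : HypoUD G := by
  refine ⟨⟨{0, 1, 5, 10, 14}, {1, 4, 6, 10, 14}, by decide, ⟨by unfold IsDom; decide +kernel, five⟩,
    ⟨by unfold IsDom; decide +kernel, five⟩⟩, fun v => ?_⟩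
  obtain ⟨f1, f2, f3⟩ := facts v
  let D0 : Finset {w | w ≠ v} := Finset.univ.filter fun w => w.1 ∈ Dl v
  have d0 : IsDom (G.induce {w | w ≠ v}) D0 := fun w hw => by
    obtain ⟨u, hu, ha⟩ := f3 w.1 w.2 (by simpa [D0] using hw)
    exact ⟨⟨u, fun e => f1 (e ▸ hu)⟩, by simpa [D0] using hu, ha⟩
  have c0 : D0.card ≤ 4 := by
    rw [← f2]
    exact Finset.card_le_card_of_injOn Subtype.val (fun w hw => by simpa [D0] using hw)
      Subtype.val_injective.injOn
  refine ⟨D0, ⟨d0, fun D' h => ?_⟩, fun D h => ?_⟩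
  · by_contra hc
    have := congrArg Finset.card (key' v D' (by omega) h)
    rw [Finset.card_map] at this
    omega
  · exact Finset.map_injective _
      ((key' v D ((h.2 D0 d0).trans c0) h.1).trans (key' v D0 c0 d0).symm)

theorem cut : IsCutVertex G 0 := by
  have hc : G.Connected := by
    have : ∀ v : Fin 19, v = 0 ∨ G.Adj 0 v ∨ ∃ u, G.Adj 0 u ∧ G.Adj u v := by decide +kernel
    have r : ∀ v, G.Reachable 0 v := fun v => by
      rcases this v with rfl | h | ⟨u, h1, h2⟩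
      exacts [.refl _, h.reachable, h1.reachable.trans h2.reachable]
    exact ⟨fun a b => (r a).symm.trans (r b)⟩
  have := hc.preconnected.subsingleton_connectedComponent
  unfold IsCutVertex
  rw [Nat.card_unique, Finite.one_lt_card_iff_nontrivial]
  refine ⟨SimpleGraph.connectedComponentMk _ ⟨1, by decide⟩,
    SimpleGraph.connectedComponentMk _ ⟨10, by decide⟩, fun h => ?_⟩
  rw [SimpleGraph.ConnectedComponent.eq, SimpleGraph.reachable_iff_reflTransGen] at h
  have step : ∀ a b : Fin 19, a ≤ 9 → a ≠ 0 → b ≠ 0 → G.Adj a b → b ≤ 9 := by decide +kernel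
  have : ∀ b, Relation.ReflTransGen (G.induce {w | w ≠ 0}).Adj ⟨1, by decide⟩ b → b.1 ≤ 9 := by
    intro b hb
    induction hb with
    | refl => decide
    | @tail x y _ h2 ih => exact step _ _ ih x.2 y.2 h2
  exact absurd (this _ h) (by decide)

end H11.HUD

open H11.HUD in
theorem Pool.Agent.Results.MP_4402ee_co.Nineteen.result :
    ∃ (n : ℕ) (G : SimpleGraph (Fin n)) (v : Fin n), HypoUD G ∧ IsCutVertex G v :=
  ⟨19, G, 0, hypo, cut⟩
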